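import Pool.Agent.H89.FM.All

/-!
# The fourth moment of all class group `L`-functions of all imaginary quadratic fields

For a negative fundamental discriminant `-D` and a character `ψ` of the ideal class group of
`ℚ(√-D)` let `L(s, ψ)` be the `L`-function of `ψ`; for `ψ² ≠ 1` it is the `L`-function of a dihedral
cusp form of weight one and conductor `D`, so of a cuspidal representation of `GL(2)`. There are
about `X^(3/2)` pairs `(D, ψ)` with `D ≤ X`. The theorem is the Lindelöf hypothesis on average over
this family in the fourth mean, at the edge of the conductor: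

  `∑_{D ≤ X} ∑_ψ sup_t (|L(1/2 + it, ψ)| (1 + |t|)^(-A))^4 ≤ C X^(3/2 + ε)`.

In particular, for all but `O(X^(1 - 4η + ε))` of the fields with `D ≤ X`, every class group
`L`-function is at most `(1 + |t|)^A D^(1/8 + η)` on the critical line: subconvexity, with half the
convexity exponent, in the aspect of the discriminant of the field and for all class group characters
at once.

Outline of the proof. (1) Parseval's formula over the class group reduces the second moment of
`L(s, ψ) ∑_{n ≤ N} α(n) ∑_{N(I) = n} ψ(I)` to the mean square, over all classes of binary quadratic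
forms `Q` with discriminant `-D`, of the sums `∑_n α(n) ∑_{L, n | Q on L} E(s, L, z_Q)`, where `L`
runs over the sublattices of index `n` of `ℤ²` and `E` is the completed Epstein zeta function of `L`
with the metric given by the root `z_Q` of `Q`. (2) The indicator of `n | Q on L` is written with
Ramanujan sums, and the Hecke relation between the Epstein zeta functions of lattices shows that only
the short vectors of `L` matter. (3) `z_Q` is replaced by a fixed point by Cauchy's formula, so that
the coefficients do not depend on `Q`, and Poisson summation over all `Q ∈ ℤ³` reduces the problem to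
counting near coincidences `|Z + μ + α v⊗v - β w⊗w| ≤ η` of rational points on the cone of the squares.
This large sieve inequality over binary quadratic forms is the heart of the proof. (4) The second
factor `L(s, ψ)` is written as an integral of partial sums of its coefficients of length `D^(1/2)`.
(5) For the polynomial dependence on `t` the contour of the theta integral is rotated.
-/

set_option autoImplicit false

open NumberField
open scoped nonZeroDivisors

namespace Pool.Agent.H89.Kept.ClassGroupFourthMoment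

/-- `L` is the `L`-function of the class group character `ψ` of `K`: holomorphic away from `1`, and
the sum of the Dirichlet series `∑_I ψ(I) N(I)^(-s)` over the nonzero integral ideals for
`Re s > 1` -/
def IsLFunction (K : Type) [Field K] [NumberField K] (ψ : ClassGroup (𝓞 K) →* ℂˣ) (L : ℂ → ℂ) :
    Prop :=
  DifferentiableOn ℂ L {1}ᶜ ∧ ∀ s : ℂ, 1 < s.re →
    HasSum (fun I : (Ideal (𝓞 K))⁰ => ((ψ (ClassGroup.mk0 I) : ℂˣ) : ℂ) *
      (Ideal.absNorm (I : Ideal (𝓞 K)) : ℂ) ^ (-s)) (L s)

/-- for every `D` in `S`: `D ≤ X`, `K D` is an imaginary quadratic field of discriminant `-D`, and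
`L D ψ` is the `L`-function of `ψ` for all class group characters `ψ` of `K D` -/
def Family (X : ℝ) (S : Finset ℕ) (K : ℕ → Type) [∀ D, Field (K D)] [∀ D, NumberField (K D)]
    (L : ∀ D, (ClassGroup (𝓞 (K D)) →* ℂˣ) → ℂ → ℂ) : Prop :=
  ∀ D ∈ S, (D : ℝ) ≤ X ∧ Module.finrank ℚ (K D) = 2 ∧ discr (K D) = -(D : ℤ) ∧
    ∀ ψ, IsLFunction (K D) ψ (L D ψ)

theorem result :
    (∀ (K : Type) [Field K] [NumberField K], Module.finrank ℚ K = 2 → discr K < 0 →
      ∀ ψ : ClassGroup (𝓞 K) →* ℂˣ, ∃ L : ℂ → ℂ, IsLFunction K ψ L) ∧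
    ∀ ε : ℝ, 0 < ε → ∃ (C : ℝ) (A : ℕ), ∀ (X : ℝ) (S : Finset ℕ) (K : ℕ → Type)
      [∀ D, Field (K D)] [∀ D, NumberField (K D)]
      (L : ∀ D, (ClassGroup (𝓞 (K D)) →* ℂˣ) → ℂ → ℂ), 1 ≤ X → Family X S K L →
      (∀ t : ∀ D, (ClassGroup (𝓞 (K D)) →* ℂˣ) → ℝ,
        ∑ D ∈ S, ∑ᶠ ψ : ClassGroup (𝓞 (K D)) →* ℂˣ,
          (‖L D ψ (1 / 2 + t D ψ * Complex.I)‖ / (1 + |t D ψ|) ^ A) ^ 4 ≤ C * X ^ (3 / 2 + ε)) ∧
      ∀ η : ℝ, 0 ≤ η → η ≤ 1 / 4 →
        (∀ D ∈ S, ∃ (ψ : ClassGroup (𝓞 (K D)) →* ℂˣ) (t : ℝ),
          (1 + |t|) ^ A * (D : ℝ) ^ (1 / 8 + η) < ‖L D ψ (1 / 2 + t * Complex.I)‖) →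
        (S.card : ℝ) ≤ C * X ^ (1 - 4 * η + ε) :=
  Pool.Agent.H89.FM.all

end Pool.Agent.H89.Kept.ClassGroupFourthMoment
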