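import Pool.Agent.H89.FC.All

/-!
# The fourth moment of the complete family of self-dual Hecke `L`-functions of imaginary quadratic
fields

For an imaginary quadratic field `K` of discriminant `-D` let `ψ` be a primitive Hecke character of
`K` which is trivial on the ideals of `ℚ`, of any conductor `f` (a positive integer) and any infinity
type `(a / |a|) ^ (2 m)`. For `ψ² ≠ 1` its `L`-function is the `L`-function of a self-dual dihedral
cusp form of `GL(2)`, of level `D f ^ 2` and weight `2 |m| + 1`; for `m = 0` these are the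
`L`-functions of all the odd irreducible orthogonal Artin representations of dimension two, and for
`m = 0`, `f = 1` those of the characters of the class groups. For every `m` there are about `X^(3/2)`
characters with `D f ^ 2 ≤ X`. The theorem is the Lindelöf hypothesis on average over this complete
family in the fourth mean,

  `∑_ψ sup_t (|L(1/2 + it, ψ)| (1 + |t| + |m|)^(-A))^4 ≤ C X^(3/2 + ε)`.

In particular `|L(1/2 + it, ψ)| ≤ (1 + |t| + |m|)^A (D f^2)^η` for all `t` and all but
`O(X^(3/2 - 4η + ε))` characters, and for all but `O(X^(1 - 4η + ε))` of the pairs `(D, f)`, that is of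
the negative discriminants `-D f^2`, every `L`-function of this level is at most
`(1 + |t| + |m|)^A (D f^2)^(1/8 + η)` on the critical line: subconvexity with half the convexity
exponent, in the aspects of the field, of the conductor and, with some exponent, of the weight and the
height, for all characters at once.

Outline of the proof. (1) Let `ψ` have conductor `f`. For a class `c` of ideals with the form
`Q_c = (a, b, c)` and a line modulo `f` (a sublattice `M = {u : f ∣ det (V, u)}` of `ℤ²`) the form of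
`M` is `(Q_c(V), f b', f² c')`, of discriminant `-D f²`. The values of a primitive `ψ` on the lines
satisfy `∑_{M ∋ u} ψ(M) = ψ(u)`, and the sum over the lines with a given reduction modulo `f / p` is
`0`. So `L(s, ψ)` times any sum `∑_{n ≤ N} α(n) ∑_{N(I) = n} ψ(I)`, `n` squarefree, is a sum over the
classes of the forms of discriminant `-D f²` of `∑_n α(n) ∑_{L, n ∣ Q on L} E_m(s, L, z_Q)`, where `L`
runs over the sublattices of index `n` of `ℤ²` and `E_m` is the completed Epstein zeta function of `L`
with the angular factor `(λ / λ̄)^m`; Parseval's formula over the ring class group gives the second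
moment. (2) The indicator of `n ∣ Q on L` is written with Ramanujan sums, and the Hecke relation
between the Epstein zeta functions of lattices shows that only the short vectors of `L` matter.
(3) `z_Q` is replaced by a fixed point by Cauchy's formula, and Poisson summation over all `Q ∈ ℤ³`
reduces the problem to counting near coincidences `|Z + μ + α v⊗v - β w⊗w| ≤ η` of rational points on
the cone of the squares. This large sieve inequality over binary quadratic forms is the heart of the
proof. (4) The second factor `L(s, ψ)` is written as an integral of partial sums of its coefficients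
of length `(D f²)^(1/2)`. (5) The theta function with the harmonic polynomial of degree `2 |m|` has
the same inversion formula for every `m`, since the metric is an affine function of
`1 / (z - z̄)` for fixed `z̄`; the contour of the theta integral is rotated by
`(|m| + 1 + it) / ||m| + 1 + it|`, for the polynomial dependence on `t` and `m`.

Written by the agents helper89 (statement, large sieve, proof text, assembly), helper95, helper61,
helper23 (blueprints of the parts), and helper3, 4, 5, 10, 11, 13, 14, 18, 19, 27, 32, 34, 35, 36, 38,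
39, 40, 41, 42, 48, 49, 54, 55, 56, 59, 62, 68, 69, 70, 72, 78, 82, 85, 86, 90, 94, 96.
-/

set_option autoImplicit false

open NumberField
open scoped nonZeroDivisors

namespace Pool.Agent.Results.MP_52e316_nt.CompleteFourthMoment

/-- the ideal `I` is non-zero and prime to `f` -/
def PrimeTo (K : Type) [Field K] [NumberField K] (f : ℕ) (I : Ideal (𝓞 K)) : Prop :=
  I ≠ ⊥ ∧ I ⊔ Ideal.span {(f : 𝓞 K)} = ⊤

/-- `ψ` is a primitive Hecke character of the imaginary quadratic field `K` (with the embedding `σ`)
which is trivial on `ℚ`, of conductor `f` and infinity type `(a / |a|) ^ (2 m) = (a / ā) ^ m`: `ψ` is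
multiplicative, of absolute value `1` on the ideals prime to `f` and zero on the others,
`ψ((a)) = (a / ā) ^ m` for the numbers `a` prime to `f` which are congruent to a rational integer
modulo `f`, and for every prime `p ∣ f` this fails for some `a` prime to `f` which is congruent to a
rational integer modulo `f / p`. -/
def IsHecke (K : Type) [Field K] [NumberField K] (σ : K →+* ℂ) (f : ℕ) (m : ℤ)
    (ψ : Ideal (𝓞 K) → ℂ) : Prop :=
  0 < f ∧ ψ ⊤ = 1 ∧ (∀ I J, ψ (I * J) = ψ I * ψ J) ∧ (∀ I, PrimeTo K f I → ‖ψ I‖ = 1) ∧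
  (∀ I, ¬ PrimeTo K f I → ψ I = 0) ∧
  (∀ (a : 𝓞 K) (n : ℤ), PrimeTo K f (Ideal.span {a}) → (f : 𝓞 K) ∣ a - n →
    ψ (Ideal.span {a}) = (σ (a : K) / (starRingEnd ℂ) (σ (a : K))) ^ m) ∧
  ∀ p : ℕ, p.Prime → p ∣ f → ∃ (a : 𝓞 K) (n : ℤ), PrimeTo K f (Ideal.span {a}) ∧
    ((f / p : ℕ) : 𝓞 K) ∣ a - n ∧
    ψ (Ideal.span {a}) ≠ (σ (a : K) / (starRingEnd ℂ) (σ (a : K))) ^ m

/-- `L` is the `L`-function of `ψ`: holomorphic away from `1`, and the sum of the Dirichlet series
`∑_I ψ(I) N(I)^(-s)` over the non-zero integral ideals for `Re s > 1` -/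
def IsLFunction (K : Type) [Field K] [NumberField K] (ψ : Ideal (𝓞 K) → ℂ) (L : ℂ → ℂ) : Prop :=
  DifferentiableOn ℂ L {1}ᶜ ∧ ∀ s : ℂ, 1 < s.re →
    HasSum (fun I : (Ideal (𝓞 K))⁰ => ψ I * (Ideal.absNorm (I : Ideal (𝓞 K)) : ℂ) ^ (-s)) (L s)

/-- the indices `(D, f, m, ψ)` of the family: discriminant `-D`, conductor `f`, infinity type `m`,
character `ψ` of the field `K D` -/
abbrev Index (K : ℕ → Type) [∀ D, Field (K D)] [∀ D, NumberField (K D)] : Type :=
  Σ D : ℕ, ℕ × ℤ × (Ideal (𝓞 (K D)) → ℂ)

/-- the level `D f ^ 2` -/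
def level {K : ℕ → Type} [∀ D, Field (K D)] [∀ D, NumberField (K D)] (x : Index K) : ℝ :=
  (x.1 : ℝ) * (x.2.1 : ℝ) ^ 2

/-- the size `1 + |t| + |m|` of the height and the weight -/
def size {K : ℕ → Type} [∀ D, Field (K D)] [∀ D, NumberField (K D)] (x : Index K) (t : ℝ) : ℝ :=
  1 + |t| + |(x.2.2.1 : ℝ)|

/-- for every `(D, f, m, ψ)` in `S`: `K D` is the imaginary quadratic field of discriminant `-D`,
`D f ^ 2 ≤ X`, `ψ` is a primitive Hecke character of `K D`, trivial on `ℚ`, of conductor `f` and
infinity type `m`, and `L (D, f, m, ψ)` is its `L`-function -/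
def Family (X : ℝ) (K : ℕ → Type) [∀ D, Field (K D)] [∀ D, NumberField (K D)]
    (σ : ∀ D, K D →+* ℂ) (S : Finset (Index K)) (L : Index K → ℂ → ℂ) : Prop :=
  ∀ x ∈ S, Module.finrank ℚ (K x.1) = 2 ∧ discr (K x.1) = -(x.1 : ℤ) ∧
    level x ≤ X ∧ IsHecke (K x.1) (σ x.1) x.2.1 x.2.2.1 x.2.2.2 ∧
    IsLFunction (K x.1) x.2.2.2 (L x)

theorem result :
    (∀ (K : Type) [Field K] [NumberField K] (σ : K →+* ℂ) (f : ℕ) (m : ℤ)
      (ψ : Ideal (𝓞 K) → ℂ), Module.finrank ℚ K = 2 → discr K < 0 → IsHecke K σ f m ψ →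
      ∃ L : ℂ → ℂ, IsLFunction K ψ L) ∧
    ∀ ε : ℝ, 0 < ε → ∃ (C : ℝ) (A : ℕ), ∀ (X : ℝ) (K : ℕ → Type)
      [∀ D, Field (K D)] [∀ D, NumberField (K D)] (σ : ∀ D, K D →+* ℂ) (S : Finset (Index K))
      (L : Index K → ℂ → ℂ), 1 ≤ X → Family X K σ S L →
      (∀ t : Index K → ℝ,
        ∑ x ∈ S, (‖L x (1 / 2 + t x * Complex.I)‖ / size x (t x) ^ A) ^ 4 ≤
          C * X ^ (3 / 2 + ε)) ∧
      (∀ η : ℝ, 0 ≤ η → η ≤ 3 / 8 →
        (∀ x ∈ S, ∃ t : ℝ, size x t ^ A * level x ^ η < ‖L x (1 / 2 + t * Complex.I)‖) →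
        (S.card : ℝ) ≤ C * X ^ (3 / 2 - 4 * η + ε)) ∧
      ∀ (η : ℝ) (T : Finset (ℕ × ℕ)), 0 ≤ η → η ≤ 1 / 4 →
        (∀ q ∈ T, ∃ x ∈ S, x.1 = q.1 ∧ x.2.1 = q.2 ∧ ∃ t : ℝ,
          size x t ^ A * level x ^ (1 / 8 + η) < ‖L x (1 / 2 + t * Complex.I)‖) →
        (T.card : ℝ) ≤ C * X ^ (1 - 4 * η + ε) :=
  Pool.Agent.H89.FC.all

end Pool.Agent.Results.MP_52e316_nt.CompleteFourthMoment
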